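import Pool.Agent.H234RC.T1
import Pool.Agent.H234RC.T12a

set_option autoImplicit false
set_option linter.unusedSectionVars false

/-!
Pairs of vertices and the vertices that distinguish them, in hypomorphic graphs.
-/

namespace Pool.Agent.Q295.TW

open Finset Classical
open Pool.Agent.H234RC (Hypo NonIso Reconstructible exists_hypo)

variable {V : Type} [Fintype V]

/-- the vertices that distinguish `a` and `b` -/
noncomputable def D (G : SimpleGraph V) (a b : V) : Finset V :=
  univ.filter (fun x => x ≠ a ∧ x ≠ b ∧ ¬ (G.Adj x a ↔ G.Adj x b))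

theorem mem_D {G : SimpleGraph V} {a b x : V} :
    x ∈ D G a b ↔ x ≠ a ∧ x ≠ b ∧ ¬ (G.Adj x a ↔ G.Adj x b) := by
  simp [D]

/-- ordered adjacent pairs which are distinguished by exactly `j` vertices -/
noncomputable def P (G : SimpleGraph V) (j : ℕ) : Finset (V × V) :=
  univ.filter (fun q => G.Adj q.1 q.2 ∧ (D G q.1 q.2).card = j)

/-- the same in the card at `v` -/
noncomputable def Pv (G : SimpleGraph V) (j : ℕ) (v : V) : Finset (V × V) :=
  univ.filter (fun q => q.1 ≠ v ∧ q.2 ≠ v ∧ G.Adj q.1 q.2 ∧ ((D G q.1 q.2).erase v).card = j)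

theorem pi_ne {G H : SimpleGraph V} {π : V → Equiv.Perm V} (hH : Hypo G H π) {v x : V} :
    π v x ≠ v ↔ x ≠ v := by
  constructor
  · intro h hx
    apply h
    rw [hx, hH.fix v]
  · intro h hx
    apply h
    apply (π v).injective
    rw [hx, hH.fix v]

theorem D_erase {G H : SimpleGraph V} {π : V → Equiv.Perm V} (hH : Hypo G H π) {v a b : V}
    (ha : a ≠ v) (hb : b ≠ v) :
    (D H (π v a) (π v b)).erase v = ((D G a b).erase v).map (π v).toEmbedding := by
  ext y
  obtain ⟨x, rfl⟩ := (π v).surjective y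
  rw [mem_erase, mem_D, mem_map]
  constructor
  · rintro ⟨h1, h2, h3, h4⟩
    refine ⟨x, ?_, rfl⟩
    have hx : x ≠ v := (pi_ne hH).mp h1
    rw [mem_erase, mem_D]
    refine ⟨hx, fun e => h2 (by rw [e]), fun e => h3 (by rw [e]), ?_⟩
    rw [hH.adj v x a hx ha, hH.adj v x b hx hb] at h4
    exact h4
  · rintro ⟨x', hx', he⟩
    have hx : x' = x := (π v).injective he
    subst hx
    rw [mem_erase, mem_D] at hx'
    obtain ⟨h1, h2, h3, h4⟩ := hx'
    refine ⟨(pi_ne hH).mpr h1, fun e => h2 ((π v).injective e),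
      fun e => h3 ((π v).injective e), ?_⟩
    rw [hH.adj v x' a h1 ha, hH.adj v x' b h1 hb]
    exact h4

theorem card_D_erase {G H : SimpleGraph V} {π : V → Equiv.Perm V} (hH : Hypo G H π) {v a b : V}
    (ha : a ≠ v) (hb : b ≠ v) :
    ((D H (π v a) (π v b)).erase v).card = ((D G a b).erase v).card := by
  rw [D_erase hH ha hb, card_map]

theorem card_Pv {G H : SimpleGraph V} {π : V → Equiv.Perm V} (hH : Hypo G H π) (j : ℕ) (v : V) :
    (Pv G j v).card = (Pv H j v).card := by
  apply card_bij (fun q _ => (π v q.1, π v q.2))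
  · intro q hq
    simp only [Pv, mem_filter, mem_univ, true_and] at hq ⊢
    obtain ⟨h1, h2, h3, h4⟩ := hq
    exact ⟨(pi_ne hH).mpr h1, (pi_ne hH).mpr h2, (hH.adj v _ _ h1 h2).mpr h3,
      by rw [card_D_erase hH h1 h2, h4]⟩
  · intro q _ q' _ h
    rw [Prod.mk.injEq] at h
    exact Prod.ext ((π v).injective h.1) ((π v).injective h.2)
  · intro q hq
    obtain ⟨a, ha⟩ := (π v).surjective q.1
    obtain ⟨b, hb⟩ := (π v).surjective q.2
    simp only [Pv, mem_filter, mem_univ, true_and] at hq
    rw [← ha, ← hb] at hq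
    obtain ⟨h1, h2, h3, h4⟩ := hq
    have h1' := (pi_ne hH).mp h1
    have h2' := (pi_ne hH).mp h2
    refine ⟨(a, b), ?_, Prod.ext ha hb⟩
    simp only [Pv, mem_filter, mem_univ, true_and]
    exact ⟨h1', h2', (hH.adj v _ _ h1' h2').mp h3, by rw [← card_D_erase hH h1' h2', h4]⟩

/-- the number of the vertices whose deletion leaves `j` distinguishing vertices -/
theorem count_del (G : SimpleGraph V) (j : ℕ) (a b : V) (hab : a ≠ b) :
    (univ.filter (fun v => a ≠ v ∧ b ≠ v ∧ ((D G a b).erase v).card = j)).card =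
      (if (D G a b).card = j then Fintype.card V - 2 - j else 0) +
        (if (D G a b).card = j + 1 then j + 1 else 0) := by
  have hsub : D G a b ⊆ univ \ {a, b} := by
    intro x hx
    rw [mem_D] at hx
    simp [hx.1, hx.2.1]
  have hsplit : univ.filter (fun v => a ≠ v ∧ b ≠ v ∧ ((D G a b).erase v).card = j) =
      (if (D G a b).card = j then (univ \ {a, b}) \ D G a b else ∅) ∪
        (if (D G a b).card = j + 1 then D G a b else ∅) := by
    ext x
    simp only [mem_filter, mem_univ, true_and, mem_union]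
    by_cases hx : x ∈ D G a b
    · have h1 := mem_D.mp hx
      have hpos : 0 < (D G a b).card := card_pos.mpr ⟨x, hx⟩
      rw [card_erase_of_mem hx]
      constructor
      · rintro ⟨_, _, h⟩
        right
        rw [if_pos (by omega)]
        exact hx
      · rintro (h | h)
        · split_ifs at h
          · simp [hx] at h
          · simp at h
        · split_ifs at h with h2
          · exact ⟨h1.1.symm, h1.2.1.symm, by omega⟩
          · simp at h
    · rw [erase_eq_of_notMem hx]
      constructor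
      · rintro ⟨h2, h3, h⟩
        left
        rw [if_pos h]
        simp [hx, h2.symm, h3.symm]
      · rintro (h | h)
        · split_ifs at h with h2
          · simp only [mem_sdiff, mem_univ, true_and, mem_insert, mem_singleton, not_or] at h
            exact ⟨fun e => h.1.1 e.symm, fun e => h.1.2 e.symm, h2⟩
          · simp at h
        · split_ifs at h
          · exact absurd h hx
          · simp at h
  have hc : ((univ : Finset V) \ {a, b}).card = Fintype.card V - 2 := by
    rw [card_sdiff_of_subset (subset_univ _), card_univ, card_pair hab]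
  rw [hsplit]
  by_cases h1 : (D G a b).card = j
  · have h2 : ¬ (D G a b).card = j + 1 := by omega
    rw [if_pos h1, if_neg h2, if_pos h1, if_neg h2, union_empty, card_sdiff_of_subset hsub, hc, h1]
    rfl
  · rw [if_neg h1, if_neg h1, empty_union, zero_add]
    by_cases h2 : (D G a b).card = j + 1
    · rw [if_pos h2, if_pos h2, h2]
    · rw [if_neg h2, if_neg h2, card_empty]

theorem sum_Pv (G : SimpleGraph V) (j : ℕ) :
    ∑ v : V, (Pv G j v).card =
      (Fintype.card V - 2 - j) * (P G j).card + (j + 1) * (P G (j + 1)).card := by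
  have h1 : ∀ v : V, (Pv G j v).card = ∑ q : V × V,
      if G.Adj q.1 q.2 then
        (if q.1 ≠ v ∧ q.2 ≠ v ∧ ((D G q.1 q.2).erase v).card = j then 1 else 0) else 0 := by
    intro v
    rw [Pv, card_filter]
    apply sum_congr rfl
    intro q _
    by_cases h : G.Adj q.1 q.2 <;> simp [h]
  have h2 : ∀ q : V × V, (∑ v : V, if G.Adj q.1 q.2 then
        (if q.1 ≠ v ∧ q.2 ≠ v ∧ ((D G q.1 q.2).erase v).card = j then 1 else 0) else 0) =
      (if G.Adj q.1 q.2 ∧ (D G q.1 q.2).card = j then Fintype.card V - 2 - j else 0) +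
      (if G.Adj q.1 q.2 ∧ (D G q.1 q.2).card = j + 1 then j + 1 else 0) := by
    intro q
    by_cases h : G.Adj q.1 q.2
    · simp only [h, if_true, true_and]
      rw [← card_filter, count_del G j q.1 q.2 h.ne]
    · simp [h]
  simp_rw [h1]
  rw [sum_comm]
  simp_rw [h2]
  rw [sum_add_distrib]
  congr 1
  · rw [P, card_filter, mul_sum]
    apply sum_congr rfl
    intro q _
    split_ifs <;> simp
  · rw [P, card_filter, mul_sum]
    apply sum_congr rfl
    intro q _
    split_ifs <;> simp

theorem pow_big (n : ℕ) (hn : 10 ≤ n) : 2 * n ^ 2 < 2 ^ (n - 2) := by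
  induction n, hn using Nat.le_induction with
  | base => norm_num
  | succ n hn ih =>
    have e : n + 1 - 2 = (n - 2) + 1 := by omega
    have h1 : 2 ^ (n + 1 - 2) = 2 * 2 ^ (n - 2) := by rw [e]; ring
    have h2 : (n + 1) ^ 2 ≤ 2 * n ^ 2 := by nlinarith
    rw [h1]
    omega

/-- The number of ordered adjacent pairs without distinguishing vertices is reconstructible. -/
theorem card_P_zero {G H : SimpleGraph V} {π : V → Equiv.Perm V} (hH : Hypo G H π)
    (hn : 10 ≤ Fintype.card V) (j : ℕ) (hj : j ≤ Fintype.card V - 2) :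
    (P G j).card = (P H j).card := by
  set n := Fintype.card V with hnn
  have hrec : ∀ j, (n - 2 - j) * (P G j).card + (j + 1) * (P G (j + 1)).card =
      (n - 2 - j) * (P H j).card + (j + 1) * (P H (j + 1)).card := by
    intro j
    rw [hnn, ← sum_Pv G j, ← sum_Pv H j]
    exact sum_congr rfl (fun v _ => card_Pv hH j v)
  let d : ℕ → ℤ := fun j => ((P G j).card : ℤ) - (P H j).card
  have hd : ∀ j, j ≤ n - 2 → d j = (-1) ^ j * (Nat.choose (n - 2) j : ℤ) * d 0 := by
    intro j
    induction j with
    | zero => intro _; simp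
    | succ j ih =>
      intro hj
      have ih' := ih (by omega)
      have h1 : ((n - 2 - j : ℕ) : ℤ) * d j + ((j : ℤ) + 1) * d (j + 1) = 0 := by
        have := hrec j
        have h2 : (((n - 2 - j) * (P G j).card + (j + 1) * (P G (j + 1)).card : ℕ) : ℤ) =
          (((n - 2 - j) * (P H j).card + (j + 1) * (P H (j + 1)).card : ℕ) : ℤ) := by
          exact_mod_cast this
        push_cast at h2
        simp only [d]
        linarith
      have h3 : (Nat.choose (n - 2) (j + 1) : ℤ) * ((j : ℤ) + 1) =
          (Nat.choose (n - 2) j : ℤ) * ((n - 2 - j : ℕ) : ℤ) := by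
        have := Nat.choose_succ_right_eq (n - 2) j
        exact_mod_cast this
      have hj0 : ((j : ℤ) + 1) ≠ 0 := by positivity
      apply mul_left_cancel₀ hj0
      have h4 : ((j : ℤ) + 1) * ((-1) ^ (j + 1) * (Nat.choose (n - 2) (j + 1) : ℤ) * d 0) =
          - (((-1) ^ j) * ((Nat.choose (n - 2) (j + 1) : ℤ) * ((j : ℤ) + 1)) * d 0) := by ring
      rw [h4, h3]
      have h5 : ((j : ℤ) + 1) * d (j + 1) = - (((n - 2 - j : ℕ) : ℤ) * d j) := by linarith
      rw [h5, ih']
      ring
  have hsumG : ∀ K : SimpleGraph V, ∑ j ∈ range (n - 2 + 1), (P K j).card ≤ n ^ 2 := by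
    intro K
    have hdis : ∀ i ∈ range (n - 2 + 1), ∀ j ∈ range (n - 2 + 1), i ≠ j →
        Disjoint (P K i) (P K j) := by
      intro i _ j _ hij
      rw [disjoint_left]
      intro q h1 h2
      simp only [P, mem_filter, mem_univ, true_and] at h1 h2
      exact hij (h1.2.symm.trans h2.2)
    rw [← card_biUnion hdis]
    calc _ ≤ (univ : Finset (V × V)).card := card_le_card (subset_univ _)
      _ = n ^ 2 := by rw [card_univ, Fintype.card_prod, ← hnn]; ring
  have habs : ∑ j ∈ range (n - 2 + 1), |d j| ≤ 2 * (n : ℤ) ^ 2 := by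
    calc ∑ j ∈ range (n - 2 + 1), |d j|
        ≤ ∑ j ∈ range (n - 2 + 1), (((P G j).card : ℤ) + (P H j).card) := by
          apply sum_le_sum
          intro j _
          rw [abs_le]
          simp only [d]
          constructor <;> omega
      _ = ((∑ j ∈ range (n - 2 + 1), (P G j).card : ℕ) : ℤ) +
          ((∑ j ∈ range (n - 2 + 1), (P H j).card : ℕ) : ℤ) := by
          rw [sum_add_distrib]; push_cast; rfl
      _ ≤ 2 * (n : ℤ) ^ 2 := by
          have a := hsumG G
          have b := hsumG H
          have a' : ((∑ j ∈ range (n - 2 + 1), (P G j).card : ℕ) : ℤ) ≤ ((n ^ 2 : ℕ) : ℤ) := by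
            exact_mod_cast a
          have b' : ((∑ j ∈ range (n - 2 + 1), (P H j).card : ℕ) : ℤ) ≤ ((n ^ 2 : ℕ) : ℤ) := by
            exact_mod_cast b
          push_cast at a' b' ⊢
          linarith
  have hpow : ∑ j ∈ range (n - 2 + 1), |d j| = 2 ^ (n - 2) * |d 0| := by
    have h1 : ∀ j ∈ range (n - 2 + 1), |d j| = (Nat.choose (n - 2) j : ℤ) * |d 0| := by
      intro j hj
      rw [hd j (by rw [mem_range] at hj; omega), abs_mul, abs_mul, abs_pow, abs_neg, abs_one,
        one_pow, one_mul, Nat.abs_cast]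
    rw [sum_congr rfl h1, ← sum_mul]
    congr 1
    have := Nat.sum_range_choose (n - 2)
    exact_mod_cast this
  have hbig := pow_big n hn
  have hbig' : 2 * (n : ℤ) ^ 2 < 2 ^ (n - 2) := by exact_mod_cast hbig
  have h0 : d 0 = 0 := by
    by_contra hne
    have h1 : 1 ≤ |d 0| := Int.one_le_abs hne
    have h2 : (2 : ℤ) ^ (n - 2) * 1 ≤ 2 ^ (n - 2) * |d 0| :=
      mul_le_mul_of_nonneg_left h1 (by positivity)
    linarith
  have hj' := hd j hj
  rw [h0, mul_zero] at hj'
  simp only [d] at hj'
  omega

end Pool.Agent.Q295.TW
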