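import Pool.Agent.Q295.TW.Count

set_option autoImplicit false
set_option linter.unusedSectionVars false

/-!
Reconstruction of graphs with twins.
-/

namespace Pool.Agent.Q295.TW

open Finset Classical
open Pool.Agent.H234RC (Hypo NonIso Reconstructible exists_hypo)

variable {V : Type} [Fintype V]

/-- true twins: adjacent, and not distinguished -/
def TT (G : SimpleGraph V) (a b : V) : Prop := G.Adj a b ∧ D G a b = ∅

theorem TT.symm {G : SimpleGraph V} {a b : V} (h : TT G a b) : TT G b a := by
  refine ⟨h.1.symm, ?_⟩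
  have h2 := h.2
  rw [eq_empty_iff_forall_notMem] at h2 ⊢
  intro x hx
  rw [mem_D] at hx
  apply h2 x
  rw [mem_D]
  exact ⟨hx.2.1, hx.1, fun e => hx.2.2 e.symm⟩

theorem TT.adj {G : SimpleGraph V} {a b : V} (h : TT G a b) {x : V} (ha : x ≠ a) (hb : x ≠ b) :
    G.Adj x a ↔ G.Adj x b := by
  by_contra hc
  have h2 := h.2
  rw [eq_empty_iff_forall_notMem] at h2
  exact h2 x (mem_D.mpr ⟨ha, hb, hc⟩)

theorem TT.trans {G : SimpleGraph V} {a b c : V} (h : TT G a b) (h' : TT G b c) (hac : a ≠ c) :
    TT G a c := by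
  have hab := h.1.ne
  have hbc := h'.1.ne
  refine ⟨(h'.adj hab hac).mp h.1, ?_⟩
  rw [eq_empty_iff_forall_notMem]
  intro x hx
  rw [mem_D] at hx
  obtain ⟨hxa, hxc, hx'⟩ := hx
  apply hx'
  by_cases hxb : x = b
  · rw [hxb]
    exact ⟨fun _ => h'.1, fun _ => h.1.symm⟩
  · exact (h.adj hxa hxb).trans (h'.adj hxb hxc)

/-- A vertex with a true twin is never the only vertex which distinguishes two adjacent vertices -/
theorem erase_empty {G : SimpleGraph V} {v v' : V} (h : TT G v v') {a b : V} (ha : a ≠ v)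
    (hb : b ≠ v) (hab : G.Adj a b) (hD : (D G a b).erase v = ∅) : D G a b = ∅ := by
  rw [eq_empty_iff_forall_notMem] at hD ⊢
  intro x hx
  by_cases hxv : x = v
  · subst hxv
    have hv' : v' ≠ x := h.1.ne.symm
    rw [mem_D] at hx
    obtain ⟨hxa, hxb, hx'⟩ := hx
    by_cases h1 : v' = a
    · subst h1
      apply hx'
      refine ⟨fun _ => ?_, fun _ => h.1⟩
      exact ((h.adj hb hab.ne.symm).mpr hab.symm).symm
    · by_cases h2 : v' = b
      · subst h2
        apply hx'
        refine ⟨fun _ => h.1, fun _ => ?_⟩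
        exact ((h.adj ha hab.ne).mpr hab).symm
      · apply hD v'
        rw [mem_erase, mem_D]
        refine ⟨hv', h1, h2, ?_⟩
        intro h3
        apply hx'
        have e1 := h.adj ha (Ne.symm h1)
        have e2 := h.adj hb (Ne.symm h2)
        rw [G.adj_comm x a, G.adj_comm x b, e1, e2, G.adj_comm a v', G.adj_comm b v']
        exact h3
  · exact hD x (mem_erase.mpr ⟨hxv, hx⟩)

/-- the number of true twins -/
noncomputable def tw (G : SimpleGraph V) (v : V) : ℕ := (univ.filter (fun u => TT G v u)).card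

/-- the degree -/
noncomputable def dg (G : SimpleGraph V) (v : V) : ℕ := (univ.filter (fun u => G.Adj v u)).card

/-- splitting a symmetric irreflexive relation at a vertex -/
theorem split_rel (R : V → V → Prop) (hs : ∀ a b, R a b → R b a) (hi : ∀ a, ¬ R a a) (v : V) :
    (univ.filter (fun q : V × V => R q.1 q.2)).card =
      (univ.filter (fun q : V × V => q.1 ≠ v ∧ q.2 ≠ v ∧ R q.1 q.2)).card +
        2 * (univ.filter (fun u => R v u)).card := by
  have h1 : univ.filter (fun q : V × V => R q.1 q.2) =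
      univ.filter (fun q : V × V => q.1 ≠ v ∧ q.2 ≠ v ∧ R q.1 q.2) ∪
      ((univ.filter (fun u => R v u)).image (fun u => (v, u)) ∪
        (univ.filter (fun u => R v u)).image (fun u => (u, v))) := by
    ext ⟨a, b⟩
    simp only [mem_filter, mem_univ, true_and, mem_union, mem_image, Prod.mk.injEq]
    constructor
    · intro h
      by_cases ha : a = v
      · right; left
        exact ⟨b, ha ▸ h, ha.symm, rfl⟩
      · by_cases hb : b = v
        · right; right
          exact ⟨a, hs _ _ (hb ▸ h), rfl, hb.symm⟩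
        · left; exact ⟨ha, hb, h⟩
    · rintro (h | ⟨u, h, rfl, rfl⟩ | ⟨u, h, rfl, rfl⟩)
      · exact h.2.2
      · exact h
      · exact hs _ _ h
  rw [h1, card_union_of_disjoint, card_union_of_disjoint]
  · rw [card_image_of_injective, card_image_of_injective]
    · ring
    · intro a b h; simpa using h
    · intro a b h; simpa using h
  · rw [disjoint_left]
    rintro ⟨a, b⟩ h2 h3
    simp only [mem_filter, mem_univ, true_and, mem_image, Prod.mk.injEq] at h2 h3
    obtain ⟨u, hu, rfl, rfl⟩ := h2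
    obtain ⟨w, hw, rfl, rfl⟩ := h3
    exact hi _ hw
  · rw [disjoint_left]
    rintro ⟨a, b⟩ h2 h3
    simp only [mem_filter, mem_univ, true_and, mem_union, mem_image, Prod.mk.injEq] at h2 h3
    rcases h3 with ⟨u, hu, rfl, rfl⟩ | ⟨u, hu, rfl, rfl⟩
    · exact h2.1 rfl
    · exact h2.2.1 rfl

theorem TT_irrefl (G : SimpleGraph V) (a : V) : ¬ TT G a a := fun h => G.irrefl h.1

theorem P_zero_eq (G : SimpleGraph V) : P G 0 = univ.filter (fun q : V × V => TT G q.1 q.2) := by
  ext q
  rw [mem_filter, P, mem_filter, card_eq_zero]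
  rfl

theorem Pv_zero_sub (G : SimpleGraph V) (v : V) :
    univ.filter (fun q : V × V => q.1 ≠ v ∧ q.2 ≠ v ∧ TT G q.1 q.2) ⊆ Pv G 0 v := by
  intro q hq
  rw [mem_filter] at hq
  obtain ⟨_, h1, h2, h3⟩ := hq
  rw [Pv, mem_filter]
  refine ⟨mem_univ _, h1, h2, h3.1, ?_⟩
  rw [h3.2]
  simp

theorem Pv_zero_eq {G : SimpleGraph V} {v v' : V} (h : TT G v v') :
    Pv G 0 v = univ.filter (fun q : V × V => q.1 ≠ v ∧ q.2 ≠ v ∧ TT G q.1 q.2) := by
  apply Subset.antisymm _ (Pv_zero_sub G v)
  intro q hq
  rw [Pv, mem_filter] at hq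
  obtain ⟨_, h1, h2, h3, h4⟩ := hq
  rw [mem_filter]
  exact ⟨mem_univ _, h1, h2, h3, erase_empty h h1 h2 h3 (card_eq_zero.mp h4)⟩

theorem tw_eq {G H : SimpleGraph V} {π : V → Equiv.Perm V} (hH : Hypo G H π)
    (hn : 10 ≤ Fintype.card V) {v v' : V} (h : TT G v v') : tw H v = tw G v := by
  have hG := split_rel (TT G) (fun _ _ => TT.symm) (TT_irrefl G) v
  have hHH := split_rel (TT H) (fun _ _ => TT.symm) (TT_irrefl H) v
  rw [← P_zero_eq] at hG hHH
  rw [← Pv_zero_eq h] at hG
  have h0 := card_P_zero hH hn 0 (Nat.zero_le _)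
  have hv := card_Pv hH 0 v
  have hsub := card_le_card (Pv_zero_sub H v)
  have hpos : 0 < (univ.filter (fun u => TT G v u)).card :=
    card_pos.mpr ⟨v', by simpa using h⟩
  have hpos' : 0 < (univ.filter (fun u => TT H v u)).card := by omega
  obtain ⟨w, hw⟩ := card_pos.mp hpos'
  rw [mem_filter] at hw
  have e := Pv_zero_eq hw.2
  rw [← e] at hHH
  unfold tw
  omega

theorem dg_eq {G H : SimpleGraph V} {π : V → Equiv.Perm V} (hH : Hypo G H π)
    (hn : 10 ≤ Fintype.card V) (v : V) : dg H v = dg G v := by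
  have hG := split_rel (fun a b => G.Adj a b) (fun _ _ h => h.symm) (fun _ h => G.irrefl h) v
  have hHH := split_rel (fun a b => H.Adj a b) (fun _ _ h => h.symm) (fun _ h => H.irrefl h) v
  have h1 : (univ.filter (fun q : V × V => G.Adj q.1 q.2)).card =
      (univ.filter (fun q : V × V => H.Adj q.1 q.2)).card := by
    have := Pool.Agent.H234RC.card_OE_eq hH (by omega)
    unfold Pool.Agent.H234RC.OE at this
    convert this
  have h2 : (univ.filter (fun q : V × V => q.1 ≠ v ∧ q.2 ≠ v ∧ G.Adj q.1 q.2)).card =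
      (univ.filter (fun q : V × V => q.1 ≠ v ∧ q.2 ≠ v ∧ H.Adj q.1 q.2)).card := by
    apply card_bij (fun q _ => (π v q.1, π v q.2))
    · intro q hq
      simp only [mem_filter, mem_univ, true_and] at hq ⊢
      exact ⟨(pi_ne hH).mpr hq.1, (pi_ne hH).mpr hq.2.1, (hH.adj v _ _ hq.1 hq.2.1).mpr hq.2.2⟩
    · intro q _ q' _ h
      rw [Prod.mk.injEq] at h
      exact Prod.ext ((π v).injective h.1) ((π v).injective h.2)
    · intro q hq
      obtain ⟨a, ha⟩ := (π v).surjective q.1
      obtain ⟨b, hb⟩ := (π v).surjective q.2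
      simp only [mem_filter, mem_univ, true_and] at hq
      rw [← ha, ← hb] at hq
      obtain ⟨h1, h2, h3⟩ := hq
      have h1' := (pi_ne hH).mp h1
      have h2' := (pi_ne hH).mp h2
      refine ⟨(a, b), ?_, Prod.ext ha hb⟩
      simp only [mem_filter, mem_univ, true_and]
      exact ⟨h1', h2', (hH.adj v _ _ h1' h2').mp h3⟩
  unfold dg
  omega

/-- degrees of twins -/
theorem TT.dg_eq {G : SimpleGraph V} {a b : V} (h : TT G a b) : dg G a = dg G b := by
  have h1 : univ.filter (fun u => G.Adj a u) =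
      insert b ((univ.filter (fun u => G.Adj a u)).erase b) := by
    rw [insert_erase]
    simpa using h.1
  have h2 : univ.filter (fun u => G.Adj b u) =
      insert a ((univ.filter (fun u => G.Adj b u)).erase a) := by
    rw [insert_erase]
    simpa using h.1.symm
  have h3 : (univ.filter (fun u => G.Adj a u)).erase b = (univ.filter (fun u => G.Adj b u)).erase a := by
    ext x
    simp only [mem_erase, mem_filter, mem_univ, true_and]
    constructor
    · rintro ⟨h4, h5⟩
      exact ⟨h5.ne.symm, ((h.adj h5.ne.symm h4).mp h5.symm).symm⟩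
    · rintro ⟨h4, h5⟩
      exact ⟨h5.ne.symm, ((h.adj h4 h5.ne.symm).mpr h5.symm).symm⟩
  unfold dg
  rw [h1, h2, h3, card_insert_of_notMem, card_insert_of_notMem]
  · simp
  · rw [← h3]; simp

/-- degree in the card -/
theorem dg_card (G : SimpleGraph V) (v u : V) (hu : u ≠ v) :
    dg G u = (univ.filter (fun x => x ≠ v ∧ G.Adj u x)).card + (if G.Adj u v then 1 else 0) := by
  unfold dg
  by_cases h : G.Adj u v
  · rw [if_pos h]
    have : univ.filter (fun x => G.Adj u x) = insert v (univ.filter (fun x => x ≠ v ∧ G.Adj u x)) := by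
      ext x
      simp only [mem_filter, mem_univ, true_and, mem_insert]
      constructor
      · intro hx
        by_cases hxv : x = v
        · exact Or.inl hxv
        · exact Or.inr ⟨hxv, hx⟩
      · rintro (rfl | hx)
        · exact h
        · exact hx.2
    rw [this, card_insert_of_notMem]
    simp
  · rw [if_neg h, add_zero]
    congr 1
    ext x
    simp only [mem_filter, mem_univ, true_and]
    constructor
    · intro hx
      exact ⟨fun e => h (e ▸ hx), hx⟩
    · exact fun hx => hx.2

theorem card_dg {G H : SimpleGraph V} {π : V → Equiv.Perm V} (hH : Hypo G H π) {v u : V}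
    (hu : u ≠ v) :
    (univ.filter (fun x => x ≠ v ∧ H.Adj (π v u) x)).card =
      (univ.filter (fun x => x ≠ v ∧ G.Adj u x)).card := by
  have : univ.filter (fun x => x ≠ v ∧ H.Adj (π v u) x) =
      (univ.filter (fun x => x ≠ v ∧ G.Adj u x)).map (π v).toEmbedding := by
    ext y
    obtain ⟨x, rfl⟩ := (π v).surjective y
    simp only [mem_filter, mem_univ, true_and, mem_map]
    constructor
    · rintro ⟨h1, h2⟩
      have h1' := (pi_ne hH).mp h1
      exact ⟨x, ⟨h1', (hH.adj v _ _ hu h1').mp h2⟩, rfl⟩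
    · rintro ⟨x', ⟨h1, h2⟩, he⟩
      have hx : x' = x := (π v).injective he
      subst hx
      exact ⟨(pi_ne hH).mpr h1, (hH.adj v _ _ hu h1).mpr h2⟩
  rw [this, card_map]

/-- the card isomorphism is an isomorphism if it maps a twin of `v` to a twin of `v` -/
theorem iso_of_twin {G H : SimpleGraph V} {π : V → Equiv.Perm V} (hH : Hypo G H π) {v u : V}
    (h : TT G v u) (h' : TT H v (π v u)) : ∀ x y, H.Adj (π v x) (π v y) ↔ G.Adj x y := by
  have hu : u ≠ v := h.1.ne.symm
  have key : ∀ y, y ≠ v → (H.Adj v (π v y) ↔ G.Adj v y) := by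
    intro y hy
    by_cases hyu : y = u
    · subst hyu
      exact ⟨fun _ => h.1, fun _ => h'.1⟩
    · have h1 : π v y ≠ v := (pi_ne hH).mpr hy
      have h2 : π v y ≠ π v u := fun e => hyu ((π v).injective e)
      have e1 := h'.adj h1 h2
      have e2 := h.adj hy hyu
      rw [H.adj_comm, e1, G.adj_comm, e2]
      exact hH.adj v y u hy hu
  intro x y
  by_cases hx : x = v
  · subst hx
    rw [hH.fix x]
    by_cases hy : y = x
    · subst hy
      rw [hH.fix y]
      simp
    · exact key y hy
  · by_cases hy : y = v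
    · subst hy
      rw [hH.fix y, H.adj_comm, G.adj_comm]
      exact key x hx
    · exact hH.adj v x y hx hy

theorem core {G H : SimpleGraph V} {π : V → Equiv.Perm V} (hH : Hypo G H π)
    (hn : 10 ≤ Fintype.card V) {v v' : V} (h : TT G v v')
    (hc : ∀ u, tw G u + 1 = tw G v →
      (G.Adj u v → dg G u ≠ dg G v) ∧ (¬ G.Adj u v → dg G u + 1 ≠ dg G v)) :
    ¬ NonIso G H := by
  intro hN
  have htw := tw_eq hH hn h
  have hpos : 0 < tw G v := card_pos.mpr ⟨v', by simpa using h⟩
  obtain ⟨w, hw⟩ := card_pos.mp (htw ▸ hpos : 0 < tw H v)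
  rw [mem_filter] at hw
  have hw := hw.2
  obtain ⟨u, rfl⟩ := (π v).surjective w
  have hu : u ≠ v := (pi_ne hH).mp hw.1.ne.symm
  by_cases huv : TT G v u
  · exact hN ⟨π v, iso_of_twin hH huv hw⟩
  -- the twins of `v` in `H`
  have hset : univ.filter (fun y => TT H v y) =
      (insert u (univ.filter (fun x => TT G u x))).map (π v).toEmbedding := by
    ext y
    obtain ⟨x, rfl⟩ := (π v).surjective y
    simp only [mem_filter, mem_univ, true_and, mem_map, mem_insert]
    constructor
    · intro hx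
      refine ⟨x, ?_, rfl⟩
      by_cases hxu : x = u
      · exact Or.inl hxu
      right
      have hxv : x ≠ v := (pi_ne hH).mp hx.1.ne.symm
      have h1 : TT H (π v u) (π v x) :=
        hw.symm.trans hx (fun e => hxu ((π v).injective e).symm)
      have h2 : G.Adj u x := (hH.adj v _ _ hu hxv).mp h1.1
      refine ⟨h2, ?_⟩
      apply erase_empty h hu hxv h2
      rw [← card_eq_zero, ← card_D_erase hH hu hxv, h1.2]
      simp
    · rintro ⟨x', hx', he⟩
      have hx : x' = x := (π v).injective he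
      subst hx
      rcases hx' with rfl | hx'
      · exact hw
      have hxv : x' ≠ v := by
        rintro rfl
        exact huv hx'.symm
      have h1 : H.Adj (π v u) (π v x') := (hH.adj v _ _ hu hxv).mpr hx'.1
      have h2 : D H (π v u) (π v x') = ∅ := by
        apply erase_empty hw ((pi_ne hH).mpr hu) ((pi_ne hH).mpr hxv) h1
        rw [← card_eq_zero, card_D_erase hH hu hxv, hx'.2]
        simp
      exact hw.trans ⟨h1, h2⟩ ((pi_ne hH).mpr hxv).symm
  have hcard : tw G u + 1 = tw G v := by
    have h1 : tw H v = (insert u (univ.filter (fun x => TT G u x))).card := by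
      unfold tw
      rw [hset, card_map]
    rw [card_insert_of_notMem] at h1
    · rw [← htw, h1]; rfl
    · simp [TT_irrefl]
  obtain ⟨c1, c2⟩ := hc u hcard
  have hd1 : dg H v = dg G v := dg_eq hH hn v
  have hd2 : dg H v = dg H (π v u) := hw.dg_eq
  have hd3 := dg_card H v (π v u) ((pi_ne hH).mpr hu)
  rw [card_dg hH hu, if_pos hw.1.symm] at hd3
  have hd4 := dg_card G v u hu
  by_cases ha : G.Adj u v
  · rw [if_pos ha] at hd4
    exact c1 ha (by omega)
  · rw [if_neg ha] at hd4
    exact c2 ha (by omega)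

theorem compl_hypo {G H : SimpleGraph V} {π : V → Equiv.Perm V} (hH : Hypo Gᶜ H π)
    (hN : NonIso Gᶜ H) : Hypo G Hᶜ π ∧ NonIso G Hᶜ := by
  refine ⟨⟨hH.fix, fun v x y hx hy => ?_⟩, ?_⟩
  · have := hH.adj v x y hx hy
    rw [SimpleGraph.compl_adj, this, SimpleGraph.compl_adj, (π v).injective.ne_iff]
    constructor
    · rintro ⟨h1, h2⟩
      by_contra h3
      exact h2 ⟨h1, h3⟩
    · intro h
      exact ⟨h.ne, fun h' => h'.2 h⟩
  · rintro ⟨σ, hσ⟩
    apply hN
    refine ⟨σ, fun x y => ?_⟩
    have := hσ x y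
    rw [SimpleGraph.compl_adj, σ.injective.ne_iff] at this
    rw [SimpleGraph.compl_adj]
    constructor
    · intro h
      have hne : x ≠ y := fun e => h.ne (by rw [e])
      exact ⟨hne, fun h' => (this.mpr h').2 h⟩
    · rintro ⟨h1, h2⟩
      by_contra h3
      exact h2 (this.mp ⟨h1, h3⟩)

theorem final (G : SimpleGraph V) (hn : 10 ≤ Fintype.card V) {v v' : V} (h : TT G v v')
    (hc : ∀ u, tw G u + 1 = tw G v →
      (G.Adj u v → dg G u ≠ dg G v) ∧ (¬ G.Adj u v → dg G u + 1 ≠ dg G v)) :
    Reconstructible G ∧ Reconstructible Gᶜ := by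
  constructor
  · by_contra hcon
    obtain ⟨H, π, hH, hN⟩ := exists_hypo G hcon
    exact core hH hn h hc hN
  · by_contra hcon
    obtain ⟨H, π, hH, hN⟩ := exists_hypo Gᶜ hcon
    obtain ⟨hH', hN'⟩ := compl_hypo hH hN
    exact core hH' hn h hc hN'

end Pool.Agent.Q295.TW
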